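import Mathlib

/-!
# Nu-regular graphs minimise the spanning-tree cycle intersection number
-/

namespace Pool.Agent.Results.MP_648063_co.NuRegularMin

open SimpleGraph Finset

universe u v

/-- The cyclomatic number `|E| - |V| + 1` (used for finite connected graphs, where the truncated
subtraction is the true one). -/
noncomputable def cyclo {V : Type u} (G : SimpleGraph V) : ℕ :=
  G.edgeSet.ncard + 1 - Nat.card V

/-- For a spanning tree `T` and an edge `f` outside `T`: the set of edges of the cycle of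
`T ∪ {f}`. -/
def cycleOf {V : Type u} (T : SimpleGraph V) (f : Sym2 V) : Set (Sym2 V) :=
  {e | ∃ (v : V) (c : (T ⊔ fromEdgeSet {f}).Walk v v), c.IsCycle ∧ e ∈ c.edges}

/-- The tree-cycles of the spanning tree `T` of `G` (as sets of edges). -/
def treeCycles {V : Type u} (G T : SimpleGraph V) : Set (Set (Sym2 V)) :=
  cycleOf T '' (G.edgeSet \ T.edgeSet)

/-- The number of unordered pairs of distinct tree-cycles of `T` having a common edge. -/
noncomputable def capT {V : Type u} (G T : SimpleGraph V) : ℕ :=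
  {P : Sym2 (Set (Sym2 V)) | ∃ C ∈ treeCycles G T, ∃ D ∈ treeCycles G T,
    C ≠ D ∧ (C ∩ D).Nonempty ∧ P = s(C, D)}.ncard

/-- The intersection number: the minimum of `capT G T` over the spanning trees `T` of `G`. -/
noncomputable def cap {V : Type u} (G : SimpleGraph V) : ℕ :=
  sInf (capT G '' {T | T ≤ G ∧ T.IsTree})

/-- The quotient `q` of `2ν` by `n - 1`. -/
noncomputable def quo {V : Type u} (G : SimpleGraph V) : ℕ := 2 * cyclo G / (Nat.card V - 1)

/-- The remainder `r` of `2ν` by `n - 1`. -/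
noncomputable def rmd {V : Type u} (G : SimpleGraph V) : ℕ := 2 * cyclo G % (Nat.card V - 1)

/-- `ν`-regular graphs: there is a universal vertex `u`, and all other vertices have degree
`q + 1` or `q + 2`. -/
def NuRegular {V : Type u} (G : SimpleGraph V) : Prop :=
  ∃ u : V, (∀ v, v ≠ u → G.Adj u v) ∧
    ∀ v, v ≠ u → (G.neighborSet v).ncard = quo G + 1 ∨ (G.neighborSet v).ncard = quo G + 2

section basic

variable {V : Type u}

lemma self_mem_cycleOf {T : SimpleGraph V} (hT : T.Connected) {f : Sym2 V}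
    (hd : ¬ f.IsDiag) (hf : f ∉ T.edgeSet) : f ∈ cycleOf T f := by
  induction f with
  | _ u v =>
    have huv : u ≠ v := by simpa using hd
    have hnadj : ¬ T.Adj u v := by simpa using hf
    obtain ⟨p, hp, -⟩ := hT.exists_path_of_dist v u
    have hle : T ≤ T ⊔ fromEdgeSet {s(u, v)} := le_sup_left
    have hadj : (T ⊔ fromEdgeSet {s(u, v)}).Adj u v := by
      right; simp [huv]
    refine ⟨u, Walk.cons hadj (p.mapLe hle), ?_, by simp⟩
    rw [Walk.cons_isCycle_iff]
    refine ⟨(Walk.isPath_mapLe hle).2 hp, ?_⟩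
    intro h
    rw [Walk.edges_mapLe_eq_edges] at h
    exact hnadj (p.adj_of_mem_edges h)

lemma cycleOf_subset (T : SimpleGraph V) (f : Sym2 V) : cycleOf T f ⊆ T.edgeSet ∪ {f} := by
  rintro e ⟨v, c, -, he⟩
  have := c.edges_subset_edgeSet he
  rw [edgeSet_sup] at this
  rcases this with h | h
  · exact Or.inl h
  · right
    rw [edgeSet_fromEdgeSet] at h
    exact h.1

lemma cycleOf_injOn {G T : SimpleGraph V} (hT : T.Connected) :
    Set.InjOn (cycleOf T) (G.edgeSet \ T.edgeSet) := by
  intro f hf g hg h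
  have h1 : f ∈ cycleOf T g := h ▸ self_mem_cycleOf hT (G.not_isDiag_of_mem_edgeSet hf.1) hf.2
  rcases cycleOf_subset T g h1 with h2 | h2
  · exact absurd h2 hf.2
  · exact h2

/-- The end edges of the tree path joining the ends of an edge outside the tree. -/
lemma exists_ends {T : SimpleGraph V} (hT : T.Connected) {f : Sym2 V}
    (hd : ¬ f.IsDiag) (hf : f ∉ T.edgeSet) :
    ∃ e₁ e₂ : Sym2 V, e₁ ∈ T.edgeSet ∧ e₂ ∈ T.edgeSet ∧ e₁ ≠ e₂ ∧ e₁ ∈ cycleOf T f ∧
      e₂ ∈ cycleOf T f ∧ ∃ u v : V, f = s(u, v) ∧ u ∈ e₁ ∧ v ∈ e₂ ∧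
        ∀ x ∈ e₁, ∀ y ∈ e₂, (x = u ∧ y = v) ∨ T.dist x y < T.dist u v := by
  induction f with
  | _ u v =>
    have huv : u ≠ v := by simpa using hd
    have hnadj : ¬ T.Adj u v := by simpa using hf
    obtain ⟨p, hp, hlen⟩ := hT.exists_path_of_dist u v
    cases p with
    | nil => exact absurd rfl huv
    | @cons _ a _ hua p' =>
      have hav : a ≠ v := by rintro rfl; exact hnadj hua
      cases p' with
      | nil => exact absurd rfl hav
      | @cons _ a' _ haa p'' =>
        obtain ⟨b, q, hbv, hq⟩ := Walk.exists_cons_eq_concat haa p''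
        rw [hq] at hlen hp
        simp only [Walk.length_cons, Walk.length_concat] at hlen
        have h1 : T.dist a b ≤ q.length := dist_le q
        have h2 : T.dist u a = 1 := dist_eq_one_iff_adj.2 hua
        have h3 : T.dist b v = 1 := dist_eq_one_iff_adj.2 hbv
        have h4 := hT.dist_triangle (u := u) (v := a) (w := v)
        have h5 := hT.dist_triangle (u := a) (v := b) (w := v)
        have h6 := hT.dist_triangle (u := u) (v := a) (w := b)
        have h7 := hT.dist_triangle (u := u) (v := b) (w := v)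
        have hle : T ≤ T ⊔ fromEdgeSet {s(u, v)} := le_sup_left
        have hadj : (T ⊔ fromEdgeSet {s(u, v)}).Adj v u := by
          right; simp [huv.symm, Sym2.eq_swap]
        have hcyc : (Walk.cons hadj
            ((Walk.cons hua (q.concat hbv)).mapLe hle)).IsCycle := by
          rw [Walk.cons_isCycle_iff]
          refine ⟨(Walk.isPath_mapLe hle).2 hp, ?_⟩
          intro h
          rw [Walk.edges_mapLe_eq_edges] at h
          exact hnadj ((Walk.adj_of_mem_edges _ h).symm)
        refine ⟨s(u, a), s(b, v), hua, hbv, ?_, ⟨v, _, hcyc, ?_⟩, ⟨v, _, hcyc, ?_⟩,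
          u, v, rfl, by simp, by simp, ?_⟩
        · intro h
          rw [Sym2.eq_iff] at h
          rcases h with ⟨-, h⟩ | ⟨h, -⟩
          · exact hav h
          · exact huv h
        · simp [Walk.edges_cons, Walk.edges_concat]
        · simp [Walk.edges_cons, Walk.edges_concat]
        · intro x hx y hy
          rw [Sym2.mem_iff] at hx hy
          rcases hx with rfl | rfl <;> rcases hy with rfl | rfl
          · right; omega
          · left; exact ⟨rfl, rfl⟩
          · right; omega
          · right; omega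

end basic

section counting

/-- Abstract counting: `F` a finite set, each `f ∈ F` gets a two element subset `E f` of `A`, and
different `f` get different subsets. Then the number of pairs `{f, g}` with `E f ∩ E g ≠ ∅` is at
least `∑ C(c e, 2)`. -/
lemma card_pairs_ge {α β : Type*} [DecidableEq α] [DecidableEq β] (F : Finset α) (A : Finset β) (E : α → Finset β)
    (hE2 : ∀ f ∈ F, (E f).card = 2) (hinj : ∀ f ∈ F, ∀ g ∈ F, E f = E g → f = g) :
    ∑ e ∈ A, (#{f ∈ F | e ∈ E f}).choose 2 =
      (A.biUnion fun e => ((F.filter (fun f => e ∈ E f)).offDiag.image (Function.uncurry Sym2.mk))).card := by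
  rw [Finset.card_biUnion]
  · refine Finset.sum_congr rfl fun e _ => ?_
    rw [Sym2.card_image_offDiag]
  · intro e _ e' _ hee
    rw [Function.onFun, Finset.disjoint_left]
    intro P hP hP'
    simp only [Finset.mem_image, Finset.mem_offDiag, Finset.mem_filter, Prod.exists,
      Function.uncurry_apply_pair] at hP hP'
    obtain ⟨f, g, ⟨⟨hf, hef⟩, ⟨hg, heg⟩, hfg⟩, rfl⟩ := hP
    obtain ⟨f', g', ⟨⟨hf', hef'⟩, ⟨hg', heg'⟩, hfg'⟩, h⟩ := hP'
    have key : e' ∈ E f ∧ e' ∈ E g := by
      rw [Sym2.eq_iff] at h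
      rcases h with ⟨rfl, rfl⟩ | ⟨rfl, rfl⟩
      · exact ⟨hef', heg'⟩
      · exact ⟨heg', hef'⟩
    have h1 : ({e, e'} : Finset β) = E f := by
      apply Finset.eq_of_subset_of_card_le
      · intro x hx
        simp only [Finset.mem_insert, Finset.mem_singleton] at hx
        rcases hx with rfl | rfl
        · exact hef
        · exact key.1
      · rw [hE2 f hf, Finset.card_pair hee]
    have h2 : ({e, e'} : Finset β) = E g := by
      apply Finset.eq_of_subset_of_card_le
      · intro x hx
        simp only [Finset.mem_insert, Finset.mem_singleton] at hx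
        rcases hx with rfl | rfl
        · exact heg
        · exact key.2
      · rw [hE2 g hg, Finset.card_pair hee]
    exact hfg (hinj f hf g hg (h1.symm.trans h2))

lemma choose_two_ge (c q : ℕ) : q.choose 2 + q * c ≤ c.choose 2 + q * q := by
  have h1 : ∀ n : ℕ, (2 : ℤ) * (n.choose 2 : ℤ) = n * n - n := by
    intro n
    have := Nat.triangle_succ (n - 1)
    rcases n with _ | n
    · simp
    · have h := Nat.choose_two_right (n + 1)
      have h2 : (n + 1) * (n + 1 - 1) / 2 * 2 = (n + 1) * (n + 1 - 1) :=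
        Nat.div_mul_cancel (by
          rw [Nat.add_sub_cancel, mul_comm]; exact (Nat.even_mul_succ_self n).two_dvd)
      rw [← h] at h2
      have h3 : ((n + 1).choose 2 : ℤ) * 2 = (n + 1) * n := by
        have := congrArg (Nat.cast : ℕ → ℤ) h2
        push_cast at this
        simpa using this
      push_cast
      linarith
  have ha := h1 c
  have hb := h1 q
  have hsq : (0 : ℤ) ≤ ((c : ℤ) - q) * ((c : ℤ) - q - 1) := by
    rcases le_or_gt ((c : ℤ) - q) 0 with h | h
    · nlinarith
    · have : (1 : ℤ) ≤ (c : ℤ) - q := h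
      nlinarith
  zify
  nlinarith

/-- Convexity: the integer version of the bound for sums of binomial coefficients. -/
lemma sum_choose_ge {β : Type*} (A : Finset β) (c : β → ℕ) (q r : ℕ)
    (h : ∑ e ∈ A, c e = q * A.card + r) :
    A.card * q.choose 2 + q * r ≤ ∑ e ∈ A, (c e).choose 2 := by
  have h1 : ∑ e ∈ A, (q.choose 2 + q * c e) ≤ ∑ e ∈ A, ((c e).choose 2 + q * q) :=
    Finset.sum_le_sum fun e _ => choose_two_ge _ _
  rw [Finset.sum_add_distrib, Finset.sum_add_distrib, ← Finset.mul_sum, h] at h1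
  simp only [Finset.sum_const, smul_eq_mul] at h1
  nlinarith

lemma choose_two_eq {c q : ℕ} (h : c = q ∨ c = q + 1) :
    c.choose 2 + q * q = q.choose 2 + q * c := by
  rcases h with rfl | rfl
  · ring
  · have : (q + 1).choose 2 = q.choose 1 + q.choose 2 := Nat.choose_succ_succ q 1
    rw [this, Nat.choose_one_right]
    ring

lemma sum_choose_eq {β : Type*} (A : Finset β) (c : β → ℕ) (q r : ℕ)
    (hc : ∀ e ∈ A, c e = q ∨ c e = q + 1)
    (h : ∑ e ∈ A, c e = q * A.card + r) :
    ∑ e ∈ A, (c e).choose 2 = A.card * q.choose 2 + q * r := by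
  have h1 : ∑ e ∈ A, ((c e).choose 2 + q * q) = ∑ e ∈ A, (q.choose 2 + q * c e) :=
    Finset.sum_congr rfl fun e he => choose_two_eq (hc e he)
  rw [Finset.sum_add_distrib, Finset.sum_add_distrib, ← Finset.mul_sum A c, h] at h1
  simp only [Finset.sum_const, smul_eq_mul] at h1
  nlinarith

end counting

section lower

variable {V : Type u} [Finite V]

lemma capT_ge (H T : SimpleGraph V) (hTH : T ≤ H) (hT : T.IsTree) :
    (Nat.card V - 1) * (quo H).choose 2 + quo H * rmd H ≤ capT H T := by
  classical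
  have : Fintype V := Fintype.ofFinite V
  have hcard : T.edgeFinset.card + 1 = Fintype.card V := hT.card_edgeFinset
  set F : Finset (Sym2 V) := H.edgeFinset \ T.edgeFinset with hF
  have hFmem : ∀ f, f ∈ F ↔ f ∈ H.edgeSet \ T.edgeSet := by
    intro f; simp [hF]
  have hTc : T.Connected := hT.1
  have hex : ∀ f : Sym2 V, f ∈ F → ∃ e₁ e₂ : Sym2 V, e₁ ∈ T.edgeSet ∧ e₂ ∈ T.edgeSet ∧ e₁ ≠ e₂ ∧
      e₁ ∈ cycleOf T f ∧ e₂ ∈ cycleOf T f ∧ ∃ u v : V, f = s(u, v) ∧ u ∈ e₁ ∧ v ∈ e₂ ∧
        ∀ x ∈ e₁, ∀ y ∈ e₂, (x = u ∧ y = v) ∨ T.dist x y < T.dist u v := by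
    intro f hf
    rw [hFmem] at hf
    exact exists_ends hTc (H.not_isDiag_of_mem_edgeSet hf.1) hf.2
  choose! e₁ e₂ h1T h2T hne h1c h2c huv using hex
  set E : Sym2 V → Finset (Sym2 V) := fun f => {e₁ f, e₂ f} with hE
  have hE2 : ∀ f ∈ F, (E f).card = 2 := fun f hf => Finset.card_pair (hne f hf)
  have hEA : ∀ f ∈ F, E f ⊆ T.edgeFinset := by
    intro f hf e he
    simp only [hE, Finset.mem_insert, Finset.mem_singleton] at he
    rw [mem_edgeFinset]
    rcases he with rfl | rfl
    · exact h1T f hf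
    · exact h2T f hf
  have hEc : ∀ f ∈ F, ∀ e ∈ E f, e ∈ cycleOf T f := by
    intro f hf e he
    simp only [hE, Finset.mem_insert, Finset.mem_singleton] at he
    rcases he with rfl | rfl
    · exact h1c f hf
    · exact h2c f hf
  have hinj : ∀ f ∈ F, ∀ g ∈ F, E f = E g → f = g := by
    intro f hf g hg hfg
    obtain ⟨u, v, hfe, hu, hv, hmax⟩ := huv f hf
    obtain ⟨u', v', hge, hu', hv', hmax'⟩ := huv g hg
    have hcase : (e₁ f = e₁ g ∧ e₂ f = e₂ g) ∨ (e₁ f = e₂ g ∧ e₂ f = e₁ g) := by
      have ha : e₁ f ∈ E g := hfg ▸ (by simp [hE])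
      have hb : e₂ f ∈ E g := hfg ▸ (by simp [hE])
      simp only [hE, Finset.mem_insert, Finset.mem_singleton] at ha hb
      have hn := hne f hf
      rcases ha with ha | ha <;> rcases hb with hb | hb
      · exact absurd (ha.trans hb.symm) hn
      · exact Or.inl ⟨ha, hb⟩
      · exact Or.inr ⟨ha, hb⟩
      · exact absurd (ha.trans hb.symm) hn
    rcases hcase with ⟨ha, hb⟩ | ⟨ha, hb⟩
    · rcases hmax u' (ha ▸ hu') v' (hb ▸ hv') with ⟨h1, h2⟩ | h1
      · rw [hfe, hge, h1, h2]
      · rcases hmax' u (ha ▸ hu) v (hb ▸ hv) with ⟨h3, h4⟩ | h3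
        · rw [hfe, hge, h3, h4]
        · omega
    · rcases hmax v' (ha ▸ hv') u' (hb ▸ hu') with ⟨h1, h2⟩ | h1
      · rw [hfe, hge, h1, h2, Sym2.eq_swap]
      · rcases hmax' v (hb ▸ hv) u (ha ▸ hu) with ⟨h3, h4⟩ | h3
        · rw [hfe, hge, h3, h4, Sym2.eq_swap]
        · have h5 : T.dist v' u' = T.dist u' v' := dist_comm
          have h6 : T.dist v u = T.dist u v := dist_comm
          omega
  have hsum : ∑ e ∈ T.edgeFinset, #{f ∈ F | e ∈ E f} = 2 * F.card := by
    have h1 : ∑ e ∈ T.edgeFinset, #{f ∈ F | e ∈ E f} =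
        ∑ f ∈ F, #{e ∈ T.edgeFinset | e ∈ E f} := by
      simp only [Finset.card_filter]
      exact Finset.sum_comm
    rw [h1]
    have h2 : ∀ f ∈ F, #{e ∈ T.edgeFinset | e ∈ E f} = 2 := by
      intro f hf
      rw [← hE2 f hf]
      congr 1
      ext e
      simp only [Finset.mem_filter]
      exact ⟨fun h => h.2, fun h => ⟨hEA f hf h, h⟩⟩
    rw [Finset.sum_congr rfl h2]
    simp [mul_comm]
  have hFc : F.card = cyclo H := by
    rw [hF, Finset.card_sdiff_of_subset (edgeFinset_mono hTH)]
    have h1 : H.edgeSet.ncard = H.edgeFinset.card := by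
      rw [← coe_edgeFinset, Set.ncard_coe_finset]
    rw [cyclo, h1, Nat.card_eq_fintype_card, ← hcard]
    omega
  have hn1 : T.edgeFinset.card = Nat.card V - 1 := by
    rw [Nat.card_eq_fintype_card, ← hcard]; omega
  have hdm : ∑ e ∈ T.edgeFinset, #{f ∈ F | e ∈ E f} = quo H * T.edgeFinset.card + rmd H := by
    rw [hsum, hFc, hn1, quo, rmd, mul_comm (2 * cyclo H / (Nat.card V - 1))]
    exact (Nat.div_add_mod _ _).symm
  have hlow := sum_choose_ge T.edgeFinset (fun e => #{f ∈ F | e ∈ E f}) (quo H) (rmd H) hdm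
  rw [card_pairs_ge F T.edgeFinset E hE2 hinj, hn1] at hlow
  refine hlow.trans ?_
  rw [capT]
  set P := T.edgeFinset.biUnion fun e => ((F.filter (fun f => e ∈ E f)).offDiag.image (Function.uncurry Sym2.mk))
    with hP
  have hPim : ∀ p ∈ P, ∃ f g, f ∈ F ∧ g ∈ F ∧ f ≠ g ∧ (E f ∩ E g).Nonempty ∧ p = s(f, g) := by
    intro p hp
    simp only [hP, Finset.mem_biUnion, Finset.mem_image, Finset.mem_offDiag, Finset.mem_filter,
      Prod.exists, Function.uncurry_apply_pair] at hp
    obtain ⟨e, -, f, g, ⟨⟨hf, hef⟩, ⟨hg, heg⟩, hfg⟩, rfl⟩ := hp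
    exact ⟨f, g, hf, hg, hfg, ⟨e, Finset.mem_inter.2 ⟨hef, heg⟩⟩, rfl⟩
  have hinjC := cycleOf_injOn (G := H) hTc
  calc P.card = (P.image (Sym2.map (cycleOf T))).card := by
        rw [Finset.card_image_of_injOn]
        intro p hp p' hp' h
        obtain ⟨f, g, hf, hg, -, -, rfl⟩ := hPim p hp
        obtain ⟨f', g', hf', hg', -, -, rfl⟩ := hPim p' hp'
        rw [hFmem] at hf hg hf' hg'
        simp only [Sym2.map_mk, Sym2.eq_iff] at h ⊢
        rcases h with ⟨h1, h2⟩ | ⟨h1, h2⟩
        · left; exact ⟨hinjC hf hf' h1, hinjC hg hg' h2⟩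
        · right; exact ⟨hinjC hf hg' h1, hinjC hg hf' h2⟩
    _ = (↑(P.image (Sym2.map (cycleOf T))) : Set (Sym2 (Set (Sym2 V)))).ncard :=
        (Set.ncard_coe_finset _).symm
    _ ≤ _ := by
        apply Set.ncard_le_ncard
        · intro p hp
          rw [Finset.mem_coe, Finset.mem_image] at hp
          obtain ⟨p', hp', rfl⟩ := hp
          obtain ⟨f, g, hf, hg, hfg, ⟨e, he⟩, rfl⟩ := hPim p' hp'
          rw [Finset.mem_inter] at he
          refine ⟨cycleOf T f, ⟨f, (hFmem f).1 hf, rfl⟩, cycleOf T g, ⟨g, (hFmem g).1 hg, rfl⟩,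
            ?_, ⟨e, hEc f hf e he.1, hEc g hg e he.2⟩, rfl⟩
          intro h
          exact hfg (hinjC ((hFmem f).1 hf) ((hFmem g).1 hg) h)
        · exact Set.toFinite _

lemma cap_ge (H : SimpleGraph V) (hH : H.Connected) :
    (Nat.card V - 1) * (quo H).choose 2 + quo H * rmd H ≤ cap H := by
  obtain ⟨T, hTH, hT⟩ := hH.exists_isTree_le
  have hne : (capT H '' {T | T ≤ H ∧ T.IsTree}).Nonempty := ⟨_, T, ⟨hTH, hT⟩, rfl⟩
  obtain ⟨T', ⟨h1, h2⟩, h3⟩ := Nat.sInf_mem hne
  rw [cap, ← h3]
  exact capT_ge H T' h1 h2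

end lower

section upper

variable {V : Type u}

lemma cycleOf_star {u : V} {f e : Sym2 V} (he : e ∈ cycleOf (starGraph u) f) : e = f ∨ ∃ x, x ∈ f ∧ e = s(u, x) := by
  rcases cycleOf_subset _ _ he with h | h
  · right
    have key : ∀ x : V, x ≠ u → s(u, x) ∈ cycleOf (starGraph u) f → x ∈ f := by
      intro x hxu hx
      by_contra hxf
      have h1 := adj_and_reachable_delete_edges_iff_exists_cycle.2 hx
      obtain ⟨p⟩ := h1.2.symm
      cases p with
      | nil => exact hxu rfl
      | @cons _ y _ hxy p' =>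
        rw [deleteEdges_adj, sup_adj, fromEdgeSet_adj] at hxy
        obtain ⟨h2, h3⟩ := hxy
        rcases h2 with h2 | ⟨h2, -⟩
        · rw [starGraph_adj] at h2
          rcases h2.2 with h4 | h4
          · exact hxu h4
          · apply h3
            rw [h4, Set.mem_singleton_iff, Sym2.eq_swap]
        · rw [Set.mem_singleton_iff] at h2
          apply hxf
          rw [← h2]
          simp
    induction e with
    | _ a b =>
      rw [mem_edgeSet, starGraph_adj] at h
      obtain ⟨hab, rfl | rfl⟩ := h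
      · exact ⟨b, key b hab.symm he, rfl⟩
      · rw [Sym2.eq_swap] at he
        exact ⟨a, key a hab he, Sym2.eq_swap⟩
  · left; exact h

lemma not_mem_of_chord {G : SimpleGraph V} {u : V} {f : Sym2 V}
    (hf : f ∈ G.edgeSet \ (starGraph u).edgeSet) : u ∉ f := by
  induction f with
  | _ a b =>
    intro hu
    have hab : a ≠ b := G.ne_of_adj hf.1
    apply hf.2
    rw [mem_edgeSet, starGraph_adj]
    rw [Sym2.mem_iff] at hu
    rcases hu with rfl | rfl
    · exact ⟨hab, Or.inl rfl⟩
    · exact ⟨hab, Or.inr rfl⟩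

lemma capT_star_le [Finite V] {G : SimpleGraph V} {u : V} (hu : ∀ v, v ≠ u → G.Adj u v)
    (hdeg : ∀ v, v ≠ u → (G.neighborSet v).ncard = quo G + 1 ∨
      (G.neighborSet v).ncard = quo G + 2) :
    capT G (starGraph u) ≤ (Nat.card V - 1) * (quo G).choose 2 + quo G * rmd G := by
  classical
  have : Fintype V := Fintype.ofFinite V
  set T := starGraph u with hTdef
  have hT : T.IsTree := isTree_starGraph u
  have hTG : T ≤ G := by
    intro a b hab
    rw [hTdef, starGraph_adj] at hab
    obtain ⟨hab, rfl | rfl⟩ := hab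
    · exact hu b hab.symm
    · exact (hu a hab).symm
  have hcard : T.edgeFinset.card + 1 = Fintype.card V := hT.card_edgeFinset
  set F : Finset (Sym2 V) := G.edgeFinset \ T.edgeFinset with hF
  have hFmem : ∀ f, f ∈ F ↔ f ∈ G.edgeSet \ T.edgeSet := by
    intro f; simp [hF]
  have hFc : F.card = cyclo G := by
    rw [hF, Finset.card_sdiff_of_subset (edgeFinset_mono hTG)]
    have h1 : G.edgeSet.ncard = G.edgeFinset.card := by
      rw [← coe_edgeFinset, Set.ncard_coe_finset]
    rw [cyclo, h1, Nat.card_eq_fintype_card, ← hcard]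
    omega
  have hAc : (Finset.univ.erase u).card = Nat.card V - 1 := by
    rw [Finset.card_erase_of_mem (Finset.mem_univ _), Finset.card_univ, Nat.card_eq_fintype_card]
  set c : V → ℕ := fun x => #{f ∈ F | x ∈ f} with hc
  have hsum : ∑ x ∈ Finset.univ.erase u, c x = quo G * (Finset.univ.erase u).card + rmd G := by
    have h1 : ∑ x ∈ Finset.univ.erase u, c x =
        ∑ f ∈ F, #{x ∈ Finset.univ.erase u | x ∈ f} := by
      simp only [hc, Finset.card_filter]
      exact Finset.sum_comm
    have h2 : ∀ f ∈ F, #{x ∈ Finset.univ.erase u | x ∈ f} = 2 := by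
      intro f hf
      rw [hFmem] at hf
      have huf := not_mem_of_chord hf
      induction f with
      | _ a b =>
        have hab : a ≠ b := G.ne_of_adj hf.1
        have h3 : {x ∈ Finset.univ.erase u | x ∈ s(a, b)} = {a, b} := by
          ext x
          simp only [Finset.mem_filter, Finset.mem_erase, Finset.mem_univ, and_true,
            Sym2.mem_iff, Finset.mem_insert, Finset.mem_singleton]
          constructor
          · exact fun h => h.2
          · intro h
            refine ⟨?_, h⟩
            rintro rfl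
            exact huf (Sym2.mem_iff.2 h)
        rw [h3, Finset.card_pair hab]
    rw [h1, Finset.sum_congr rfl h2, hAc, quo, rmd, mul_comm (2 * cyclo G / (Nat.card V - 1)),
      Nat.div_add_mod, ← hFc]
    simp [mul_comm]
  have hcx : ∀ x ∈ Finset.univ.erase u, c x = quo G ∨ c x = quo G + 1 := by
    intro x hx
    have hxu : x ≠ u := Finset.ne_of_mem_erase hx
    have h1 : {f ∈ F | x ∈ f} = (G.incidenceFinset x).erase s(u, x) := by
      ext f
      rw [Finset.mem_filter, hFmem, Finset.mem_erase, mem_incidenceFinset]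
      constructor
      · rintro ⟨⟨h2, h3⟩, h4⟩
        refine ⟨?_, h2, h4⟩
        rintro rfl
        apply h3
        rw [mem_edgeSet, hTdef, starGraph_adj]
        exact ⟨hxu.symm, Or.inl rfl⟩
      · rintro ⟨h2, h3, h4⟩
        refine ⟨⟨h3, ?_⟩, h4⟩
        intro h5
        apply h2
        induction f with
        | _ a b =>
          rw [mem_edgeSet, hTdef, starGraph_adj] at h5
          rw [Sym2.mem_iff] at h4
          obtain ⟨h6, rfl | rfl⟩ := h5
          · rcases h4 with h4 | h4
            · exact absurd h4 hxu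
            · rw [h4]
          · rcases h4 with h4 | h4
            · rw [h4, Sym2.eq_swap]
            · exact absurd h4 hxu
    have h2 : s(u, x) ∈ G.incidenceFinset x := by
      rw [mem_incidenceFinset]
      exact ⟨hu x hxu, Sym2.mem_mk_right _ _⟩
    have h3 : (G.neighborSet x).ncard = G.degree x := by
      rw [Set.ncard_eq_toFinset_card', ← card_neighborFinset_eq_degree]
      rfl
    have h4 : c x = G.degree x - 1 := by
      simp only [hc]
      rw [h1, Finset.card_erase_of_mem h2, card_incidenceFinset_eq_degree]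
    have h5 := hdeg x hxu
    rw [h3] at h5
    rcases h5 with h5 | h5
    · left; omega
    · right; omega
  have hfin := sum_choose_eq (Finset.univ.erase u) c (quo G) (rmd G) hcx hsum
  rw [hAc] at hfin
  rw [← hfin]
  set P := (Finset.univ.erase u).biUnion fun x =>
    ((F.filter (fun f => x ∈ f)).offDiag.image (Function.uncurry Sym2.mk)) with hP
  have hPc : P.card ≤ ∑ x ∈ Finset.univ.erase u, (c x).choose 2 := by
    refine Finset.card_biUnion_le.trans ?_
    refine Finset.sum_le_sum fun x _ => ?_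
    rw [Sym2.card_image_offDiag]
  refine le_trans ?_ hPc
  rw [capT]
  calc {p : Sym2 (Set (Sym2 V)) | ∃ C ∈ treeCycles G T, ∃ D ∈ treeCycles G T,
        C ≠ D ∧ (C ∩ D).Nonempty ∧ p = s(C, D)}.ncard
      ≤ (↑(P.image (Sym2.map (cycleOf T))) : Set (Sym2 (Set (Sym2 V)))).ncard := by
        apply Set.ncard_le_ncard
        · rintro p ⟨C, ⟨f, hf, rfl⟩, D, ⟨g, hg, rfl⟩, hne, ⟨e, heC, heD⟩, rfl⟩
          have hfg : f ≠ g := fun h => hne (by rw [h])
          have huf := not_mem_of_chord hf
          have hug := not_mem_of_chord hg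
          have h1 := cycleOf_star heC
          have h2 := cycleOf_star heD
          have h3 : ∃ x, x ∈ f ∧ x ∈ g := by
            rcases h1 with h1 | ⟨x, hxf, hx⟩
            · rcases h2 with h2 | ⟨y, hyg, hy⟩
              · exact absurd (h1.symm.trans h2) hfg
              · exact absurd (by rw [← h1, hy]; simp) huf
            · rcases h2 with h2 | ⟨y, hyg, hy⟩
              · exact absurd (by rw [← h2, hx]; simp) hug
              · have h4 : s(u, x) = s(u, y) := hx.symm.trans hy
                rw [Sym2.eq_iff] at h4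
                rcases h4 with ⟨-, h4⟩ | ⟨h4, -⟩
                · exact ⟨x, hxf, h4 ▸ hyg⟩
                · exact absurd (h4 ▸ hyg) hug
          obtain ⟨x, hxf, hxg⟩ := h3
          rw [Finset.mem_coe, Finset.mem_image]
          refine ⟨s(f, g), ?_, by rw [Sym2.map_mk]⟩
          rw [hP, Finset.mem_biUnion]
          refine ⟨x, Finset.mem_erase.2 ⟨?_, Finset.mem_univ _⟩, ?_⟩
          · rintro rfl; exact huf hxf
          · rw [Finset.mem_image]
            refine ⟨(f, g), ?_, rfl⟩
            rw [Finset.mem_offDiag]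
            exact ⟨Finset.mem_filter.2 ⟨(hFmem f).2 hf, hxf⟩,
              Finset.mem_filter.2 ⟨(hFmem g).2 hg, hxg⟩, hfg⟩
        · exact Set.toFinite _
    _ = (P.image (Sym2.map (cycleOf T))).card := Set.ncard_coe_finset _
    _ ≤ P.card := Finset.card_image_le

lemma cap_le [Finite V] {G : SimpleGraph V} (hG : NuRegular G) :
    cap G ≤ (Nat.card V - 1) * (quo G).choose 2 + quo G * rmd G := by
  obtain ⟨u, hu, hdeg⟩ := hG
  have hle : starGraph u ≤ G := by
    intro a b hab
    rw [starGraph_adj] at hab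
    obtain ⟨hab, rfl | rfl⟩ := hab
    · exact hu b hab.symm
    · exact (hu a hab).symm
  have hmem : capT G (starGraph u) ∈ capT G '' {T | T ≤ G ∧ T.IsTree} :=
    ⟨starGraph u, ⟨hle, isTree_starGraph u⟩, rfl⟩
  exact (Nat.sInf_le hmem).trans (capT_star_le hu hdeg)

end upper

/-- Main result: every connected graph `H` on `n ≥ 2` vertices satisfies
`∩(H) ≥ (n - 1) C(q, 2) + q r`, and a `ν`-regular graph `G` minimises `∩` among the connected
graphs with the same numbers of vertices and edges. -/
theorem result :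
    (∀ (V : Type u) [Finite V] (H : SimpleGraph V), H.Connected → 2 ≤ Nat.card V →
      (Nat.card V - 1) * (quo H).choose 2 + quo H * rmd H ≤ cap H) ∧
    (∀ (V : Type u) (W : Type v) [Finite V] [Finite W] (G : SimpleGraph V) (H : SimpleGraph W),
      NuRegular G → H.Connected → 2 ≤ Nat.card V → Nat.card V = Nat.card W →
      G.edgeSet.ncard = H.edgeSet.ncard → cap G ≤ cap H) := by
  refine ⟨fun V _ H hH _ => cap_ge H hH, ?_⟩
  intro V W _ _ G H hG hH _ hVW hE
  refine (cap_le hG).trans ?_
  have h1 : quo G = quo H := by rw [quo, quo, cyclo, cyclo, hVW, hE]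
  have h2 : rmd G = rmd H := by rw [rmd, rmd, cyclo, cyclo, hVW, hE]
  rw [h1, h2, hVW]
  exact cap_ge H hH

end Pool.Agent.Results.MP_648063_co.NuRegularMin
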